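import Pool.Agent.Helper2.HY.Defs
import Pool.Agent.Helper27.TF.A

/-!
Project HY (MP_b8862a_ag): the trace identity for type A when the levels are `-1`, `0`, `1`.
-/

set_option linter.unusedSectionVars false

open Module PF

namespace TF

theorem two_pow_central (k : ℕ) : 2 ^ k ≤ k.centralBinom := by
  induction k with
  | zero => simp
  | succ k ih =>
    have h1 := Nat.succ_mul_centralBinom_succ k
    have h2 : (k + 1) * (2 * k.centralBinom) ≤ (k + 1) * (k + 1).centralBinom := by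
      rw [h1]; nlinarith [Nat.zero_le (k * k.centralBinom)]
    have h3 := Nat.le_of_mul_le_mul_left h2 (Nat.succ_pos k)
    calc 2 ^ (k + 1) = 2 * 2 ^ k := by ring
      _ ≤ 2 * k.centralBinom := Nat.mul_le_mul_left _ ih
      _ ≤ _ := h3

theorem two_pow_le_choose {k m : ℕ} (h : 2 * k ≤ m) : 2 ^ k ≤ m.choose k :=
  (two_pow_central k).trans (Nat.choose_le_choose k h)

theorem lt_Lg {n k : ℕ} (h : 2 ^ k ≤ n) : k < Lg n := by
  unfold Lg
  have hn : n ≠ 0 := by
    have := Nat.one_le_two_pow (n := k)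
    omega
  have := (Nat.le_log_iff_pow_le (by norm_num) hn).2 h
  omega

theorem exists_perm {m r : ℕ} (f g : Fin r → Fin m) (hf : Function.Injective f) (hg : Function.Injective g) :
    ∃ σ : Equiv.Perm (Fin m), ∀ t, σ (f t) = g t := by
  have := Equiv.Perm.isMultiplyPretransitive (Fin m) r
  obtain ⟨σ, h⟩ := MulAction.exists_smul_eq (Equiv.Perm (Fin m)) (⟨f, hf⟩ : Fin r ↪ Fin m) ⟨g, hg⟩
  exact ⟨σ, fun t => by simpa using congrArg (fun e : Fin r ↪ Fin m => e t) h⟩

variable {E : Type*} [NormedAddCommGroup E] [InnerProductSpace ℝ E] {Φ X : Finset E}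
  {m : ℕ} {u : Fin m → E} {n s : ℕ} {l y : E}

theorem FrA.swap (F : FrA Φ m u) (hX : Sat Φ X) {x : E} (hx : x ∈ X) (i j : Fin m) :
    ∃ x' ∈ X, ∀ k, (inner ℝ x' (u k) : ℝ) = inner ℝ x (u (Equiv.swap i j k)) := by
  by_cases hij : i = j
  · subst hij
    exact ⟨x, hx, fun k => by simp⟩
  · have h1 := Sat.refl27 hX (F.mem' hij) (by rw [neg_sub]; exact F.mem' (Ne.symm hij)) hx
    refine ⟨_, h1, fun k => ?_⟩
    rw [F.co hij, _root_.inner_sub_left, inner_smul_left, conj_trivial, F.inner_sub]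
    by_cases hki : k = i
    · subst hki
      rw [Equiv.swap_apply_left, if_pos rfl, if_neg (Ne.symm hij)]; ring
    · by_cases hkj : k = j
      · subst hkj
        rw [Equiv.swap_apply_right, if_neg (Ne.symm hki), if_pos rfl]; ring
      · rw [Equiv.swap_apply_of_ne_of_ne hki hkj, if_neg (Ne.symm hki), if_neg (Ne.symm hkj)]; ring

theorem FrA.perm (F : FrA Φ m u) (hX : Sat Φ X) (σ : Equiv.Perm (Fin m)) : ∀ x ∈ X,
    ∃ x' ∈ X, ∀ k, (inner ℝ x' (u k) : ℝ) = inner ℝ x (u (σ k)) := by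
  classical
  induction σ using Equiv.Perm.swap_induction_on with
  | one => exact fun x hx => ⟨x, hx, fun k => rfl⟩
  | swap_mul f a b hab ih =>
    intro x hx
    obtain ⟨x1, hx1, h1⟩ := F.swap hX hx a b
    obtain ⟨x2, hx2, h2⟩ := ih x1 hx1
    exact ⟨x2, hx2, fun k => by rw [h2 k, h1]; rfl⟩

/-- the number of the coordinates which are one -/
theorem FrA.choose_ones (F : FrA Φ m u) (hX : Sat Φ X) {x : E} (hx : x ∈ X) {k : ℕ}
    (hk : (Finset.univ.filter fun i => (inner ℝ x (u i) : ℝ) = 1).card = k) : m.choose k ≤ X.card := by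
  classical
  let P : Finset (Fin m) → Prop := fun S => ∃ x ∈ X, ∀ i, i ∈ S ↔ (inner ℝ x (u i) : ℝ) = 1
  have hstep : ∀ S, P S → ∀ i ∈ S, ∀ j, j ∉ S → P (insert j (S.erase i)) := by
    rintro S ⟨x, hx, hS⟩ i hi j hj
    have hij : i ≠ j := by rintro rfl; exact hj hi
    obtain ⟨x', hx', h⟩ := F.swap hX hx i j
    refine ⟨x', hx', fun k => ?_⟩
    rw [h k, ← hS]
    by_cases hki : k = i
    · subst hki
      rw [Equiv.swap_apply_left]
      simp [hij, hj]
    · by_cases hkj : k = j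
      · subst hkj
        rw [Equiv.swap_apply_right]
        simp [hi]
      · rw [Equiv.swap_apply_of_ne_of_ne hki hkj]
        simp [hki, hkj]
  have hall := exch P _ (⟨x, hx, fun i => by simp⟩ : P (Finset.univ.filter fun i => (inner ℝ x (u i) : ℝ) = 1)) hk
    hstep
  refine choose_le X k (fun y S => ∀ i, i ∈ S ↔ (inner ℝ y (u i) : ℝ) = 1) ?_ (fun S hS => hall S hS)
  intro y S S' h2 h3
  ext i
  rw [h2 i, h3 i]

/-- weights with small integral coordinates are roots -/
theorem FrA.root_of_small (F : FrA Φ m u) (hm : 9 ≤ m) {l : E} (hlsp : l ∈ Submodule.span ℝ (Φ : Set E))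
    (hl0 : l ≠ 0) {z : Fin m → ℤ} (hz : ∀ i, (inner ℝ l (u i) : ℝ) = z i) (hz2 : ∑ i, |z i| ≤ 2) : l ∈ Φ := by
  have hz0 : ∑ i, z i = 0 := by
    have h1 := F.sum_ax (by omega) l
    simp only [hz] at h1
    exact_mod_cast h1
  rcases small_z hz2 with h0 | ⟨k, hk, hj⟩ | ⟨k, hk, hj⟩ | ⟨k, k', hkk, hk, hk', hj⟩
  · exfalso
    apply hl0
    have : (inner ℝ l l : ℝ) = 0 := by
      rw [F.inner_eq hlsp]
      exact Finset.sum_eq_zero fun i _ => by rw [hz i, h0 i]; norm_num
    exact inner_self_eq_zero.1 this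
  · exfalso
    rw [Finset.sum_eq_single k (fun i _ hi => hj i hi) (fun h => absurd (Finset.mem_univ k) h)] at hz0
    rw [hz0] at hk
    norm_num at hk
  · exfalso
    rw [Finset.sum_eq_single k (fun i _ hi => hj i hi) (fun h => absurd (Finset.mem_univ k) h)] at hz0
    rw [hz0] at hk
    norm_num at hk
  · have hsum : z k + z k' = 0 := by
      rw [← hz0, ← Finset.add_sum_erase _ _ (Finset.mem_univ k),
        ← Finset.add_sum_erase _ _ (Finset.mem_erase.2 ⟨hkk.symm, Finset.mem_univ k'⟩), Finset.sum_eq_zero,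
        add_zero]
      intro i hi
      have h1 := Finset.mem_erase.1 hi
      exact hj i (Finset.mem_erase.1 h1.2).1 h1.1
    have hcases : (z k = 1 ∧ z k' = -1) ∨ (z k = -1 ∧ z k' = 1) := by
      rcases abs_cases (z k) with h1 | h1 <;> omega
    rcases hcases with ⟨h1, h2⟩ | ⟨h1, h2⟩
    · have h3 : l = u k - u k' := by
        refine F.eq_of hlsp (Submodule.subset_span (F.mem' hkk)) fun i => ?_
        rw [hz i, F.inner_sub]
        by_cases hi : i = k
        · rw [hi, h1, if_pos rfl, if_neg hkk.symm]; norm_num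
        · by_cases hi' : i = k'
          · rw [hi', h2, if_neg hkk, if_pos rfl]; norm_num
          · rw [hj i hi hi', if_neg (Ne.symm hi), if_neg (Ne.symm hi')]; norm_num
      rw [h3]; exact F.mem' hkk
    · have h3 : l = u k' - u k := by
        refine F.eq_of hlsp (Submodule.subset_span (F.mem' hkk.symm)) fun i => ?_
        rw [hz i, F.inner_sub]
        by_cases hi : i = k
        · rw [hi, h1, if_pos rfl, if_neg hkk.symm]; norm_num
        · by_cases hi' : i = k'
          · rw [hi', h2, if_neg hkk, if_pos rfl]; norm_num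
          · rw [hj i hi hi', if_neg (Ne.symm hi), if_neg (Ne.symm hi')]; norm_num
      rw [h3]; exact F.mem' hkk.symm

/-- the indicator form of a vector with four entries `±1` -/
theorem four_form {w : Fin m → ℤ} (h1 : ∀ i, |w i| ≤ 1) (h0 : ∑ i, w i = 0) (h4 : ∑ i, |w i| = 4) :
    ∃ a b c d : Fin m, a ≠ b ∧ a ≠ c ∧ a ≠ d ∧ b ≠ c ∧ b ≠ d ∧ c ≠ d ∧ w a = 1 ∧ w b = 1 ∧ w c = -1 ∧ w d = -1 ∧
      ∀ i, i ≠ a → i ≠ b → i ≠ c → i ≠ d → w i = 0 := by
  classical
  let P : Finset (Fin m) := Finset.univ.filter fun i => w i = 1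
  let N : Finset (Fin m) := Finset.univ.filter fun i => w i = -1
  have hc : ∀ i, w i = 0 ∨ w i = 1 ∨ w i = -1 := by
    intro i
    have := h1 i
    rw [abs_le] at this
    omega
  have hP : (P.card : ℤ) = ∑ i, if w i = 1 then 1 else 0 := by
    rw [Finset.card_filter]; push_cast; rfl
  have hN : (N.card : ℤ) = ∑ i, if w i = -1 then 1 else 0 := by
    rw [Finset.card_filter]; push_cast; rfl
  have e1 : (P.card : ℤ) + N.card = 4 := by
    rw [hP, hN, ← h4, ← Finset.sum_add_distrib]
    refine Finset.sum_congr rfl fun i _ => ?_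
    rcases hc i with h | h | h <;> rw [h] <;> norm_num
  have e2 : (P.card : ℤ) - N.card = 0 := by
    have e3 : (P.card : ℤ) - N.card = ∑ i, w i := by
      rw [hP, hN, ← Finset.sum_sub_distrib]
      refine Finset.sum_congr rfl fun i _ => ?_
      rcases hc i with h | h | h <;> rw [h] <;> norm_num
    rw [e3, h0]
  have hP2 : P.card = 2 := by omega
  have hN2 : N.card = 2 := by omega
  obtain ⟨a, b, hab, hPab⟩ := Finset.card_eq_two.1 hP2
  obtain ⟨c, d, hcd, hNcd⟩ := Finset.card_eq_two.1 hN2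
  have hPm : ∀ i, w i = 1 ↔ i = a ∨ i = b := by
    intro i
    have : i ∈ P ↔ i = a ∨ i = b := by rw [hPab]; simp
    rw [← this]; simp [P]
  have hNm : ∀ i, w i = -1 ↔ i = c ∨ i = d := by
    intro i
    have : i ∈ N ↔ i = c ∨ i = d := by rw [hNcd]; simp
    rw [← this]; simp [N]
  have ha := (hPm a).2 (Or.inl rfl)
  have hb := (hPm b).2 (Or.inr rfl)
  have hc' := (hNm c).2 (Or.inl rfl)
  have hd := (hNm d).2 (Or.inr rfl)
  refine ⟨a, b, c, d, hab, ?_, ?_, ?_, ?_, hcd, ha, hb, hc', hd, ?_⟩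
  · rintro rfl; omega
  · rintro rfl; omega
  · rintro rfl; omega
  · rintro rfl; omega
  · intro i h1 h2 h3 h4
    rcases hc i with h | h | h
    · exact h
    · exact absurd ((hPm i).1 h) (by tauto)
    · exact absurd ((hNm i).1 h) (by tauto)

/-- the inner product with a vector with two entries -/
theorem FrA.two_lvl (F : FrA Φ m u) (hX : Sat Φ X) {x : E} (hx : x ∈ X) {p q : Fin m} (hpq : p ≠ q)
    (hp : (inner ℝ x (u p) : ℝ) = 1) (hq : (inner ℝ x (u q) : ℝ) = -1)
    (h0 : ∀ i, i ≠ p → i ≠ q → (inner ℝ x (u i) : ℝ) = 0) (y : E) :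
    (inner ℝ x y : ℝ) = inner ℝ y (u p) - inner ℝ y (u q) := by
  classical
  rw [F.inner_eq (Sat.span27 hX hx) y, ← Finset.add_sum_erase _ _ (Finset.mem_univ p),
    ← Finset.add_sum_erase _ _ (Finset.mem_erase.2 ⟨hpq.symm, Finset.mem_univ q⟩), Finset.sum_eq_zero, hp, hq]
  · ring
  · intro i hi
    have h1 := Finset.mem_erase.1 hi
    rw [h0 i (Finset.mem_erase.1 h1.2).1 h1.1, zero_mul]

theorem FrA.four_lvl (F : FrA Φ m u) (hX : Sat Φ X) {x : E} (hx : x ∈ X) {a b c d : Fin m}
    (hab : a ≠ b) (hac : a ≠ c) (had : a ≠ d) (hbc : b ≠ c) (hbd : b ≠ d) (hcd : c ≠ d)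
    (ha : (inner ℝ x (u a) : ℝ) = 1) (hb : (inner ℝ x (u b) : ℝ) = 1) (hc : (inner ℝ x (u c) : ℝ) = -1)
    (hd : (inner ℝ x (u d) : ℝ) = -1)
    (h0 : ∀ i, i ≠ a → i ≠ b → i ≠ c → i ≠ d → (inner ℝ x (u i) : ℝ) = 0) (y : E) :
    (inner ℝ x y : ℝ) = inner ℝ y (u a) + inner ℝ y (u b) - inner ℝ y (u c) - inner ℝ y (u d) := by
  classical
  rw [F.inner_eq (Sat.span27 hX hx) y, ← Finset.add_sum_erase _ _ (Finset.mem_univ a),
    ← Finset.add_sum_erase _ _ (Finset.mem_erase.2 ⟨hab.symm, Finset.mem_univ b⟩),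
    ← Finset.add_sum_erase _ _ (Finset.mem_erase.2 ⟨hbc.symm, Finset.mem_erase.2 ⟨hac.symm, Finset.mem_univ c⟩⟩),
    ← Finset.add_sum_erase _ _ (Finset.mem_erase.2 ⟨hcd.symm, Finset.mem_erase.2 ⟨hbd.symm,
      Finset.mem_erase.2 ⟨had.symm, Finset.mem_univ d⟩⟩⟩), Finset.sum_eq_zero, ha, hb, hc, hd]
  · ring
  · intro i hi
    simp only [Finset.mem_erase, Finset.mem_univ, and_true] at hi
    rw [h0 i hi.2.2.2 hi.2.2.1 hi.2.1 hi.1, zero_mul]

/-- the shape of the grading element -/
theorem FrA.y_shape (F : FrA Φ m u) (hX : Sat Φ X) (hm : 9 ≤ m) (h3 : Lev3 X y)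
    (hy : y ∈ Submodule.span ℝ (Φ : Set E)) (hy0 : y ≠ 0) {x : E} (hx : x ∈ X) {w : Fin m → ℤ}
    (hw : ∀ i, (inner ℝ x (u i) : ℝ) = w i) (h1 : ∀ i, |w i| ≤ 1) (h4 : ∑ i, |w i| = 4) :
    ∃ (p : Fin m) (ε : ℝ), (ε = 1 ∨ ε = -1) ∧
      ∀ k, (inner ℝ y (u k) : ℝ) = ε * ((if k = p then 1 else 0) - 1 / (m : ℝ)) := by
  classical
  have hm0 : (0 : ℝ) < m := by exact_mod_cast (by omega : 0 < m)
  have hw0 : ∑ i, w i = 0 := by
    have h1 := F.sum_ax (by omega) x
    simp only [hw] at h1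
    exact_mod_cast h1
  obtain ⟨a, b, c, d, hab, hac, had, hbc, hbd, hcd, ha, hb, hc, hd, hz⟩ := four_form h1 hw0 h4
  -- four coordinates
  have hfour : ∀ i j k l : Fin m, i ≠ j → i ≠ k → i ≠ l → j ≠ k → j ≠ l → k ≠ l →
      (inner ℝ y (u i) : ℝ) + inner ℝ y (u j) - inner ℝ y (u k) - inner ℝ y (u l) ≤ 1 := by
    intro i j k l hij hik hil hjk hjl hkl
    obtain ⟨σ, hσ⟩ := exists_perm ![i, j, k, l] ![a, b, c, d]
      (by
        intro s t hst
        fin_cases s <;> fin_cases t <;> simp_all)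
      (by
        intro s t hst
        fin_cases s <;> fin_cases t <;> simp_all)
    have s0 : σ i = a := hσ 0
    have s1 : σ j = b := hσ 1
    have s2 : σ k = c := hσ 2
    have s3 : σ l = d := hσ 3
    obtain ⟨x', hx', h'⟩ := F.perm hX σ x hx
    have h5 := F.four_lvl hX hx' hij hik hil hjk hjl hkl (by rw [h', s0, hw, ha]; norm_num)
      (by rw [h', s1, hw, hb]; norm_num) (by rw [h', s2, hw, hc]; norm_num) (by rw [h', s3, hw, hd]; norm_num)
      (fun t h1 h2 h3 h4 => by
        rw [h', hw, hz (σ t) (fun h => h1 (σ.injective (h.trans s0.symm))) (fun h => h2 (σ.injective (h.trans s1.symm)))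
          (fun h => h3 (σ.injective (h.trans s2.symm))) (fun h => h4 (σ.injective (h.trans s3.symm)))]
        norm_num) y
    rw [← h5]
    rcases h3 x' hx' with h | h | h <;> rw [h] <;> norm_num
  -- two coordinates
  have htwo : ∀ i j : Fin m, i ≠ j → (inner ℝ y (u i) : ℝ) - inner ℝ y (u j) = -1 ∨
      (inner ℝ y (u i) : ℝ) - inner ℝ y (u j) = 0 ∨ (inner ℝ y (u i) : ℝ) - inner ℝ y (u j) = 1 := by
    intro i j hij
    have hx1 := F.step hX hx hac (by rw [hw, hw, ha, hc]; norm_num)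
    obtain ⟨σ, hσ⟩ := exists_perm ![i, j] ![b, d]
      (by
        intro s t hst
        fin_cases s <;> fin_cases t <;> simp_all)
      (by
        intro s t hst
        fin_cases s <;> fin_cases t <;> simp_all)
    have s0 : σ i = b := hσ 0
    have s1 : σ j = d := hσ 1
    obtain ⟨x', hx', h'⟩ := F.perm hX σ _ hx1
    have h5 := F.two_lvl hX hx' hij
      (by rw [h', F.ax_step, s0, hw, hb, if_neg hab, if_neg hbc.symm]; norm_num)
      (by rw [h', F.ax_step, s1, hw, hd, if_neg had, if_neg hcd]; norm_num)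
      (fun t h1 h2 => by
        rw [h', F.ax_step, hw]
        have h3 : σ t ≠ b := fun h => h1 (σ.injective (h.trans s0.symm))
        have h4 : σ t ≠ d := fun h => h2 (σ.injective (h.trans s1.symm))
        by_cases h5 : σ t = a
        · rw [h5, ha, if_pos rfl, if_neg hac.symm]; norm_num
        · by_cases h6 : σ t = c
          · rw [h6, hc, if_neg hac, if_pos rfl]; norm_num
          · rw [hz _ h5 h3 h6 h4, if_neg (Ne.symm h5), if_neg (Ne.symm h6)]; norm_num) y
    rw [← h5]
    exact h3 x' hx'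
  -- two different values
  obtain ⟨p, q, hpq, hd1⟩ : ∃ p q, p ≠ q ∧ (inner ℝ y (u p) : ℝ) - inner ℝ y (u q) = 1 := by
    by_contra hcon
    push Not at hcon
    apply hy0
    have hall : ∀ i j, (inner ℝ y (u i) : ℝ) = inner ℝ y (u j) := by
      intro i j
      by_cases hij : i = j
      · rw [hij]
      · rcases htwo i j hij with h | h | h
        · exact absurd (by linarith) (hcon j i (Ne.symm hij))
        · linarith
        · exact absurd h (hcon i j hij)
    have h5 : ∀ i, (inner ℝ y (u i) : ℝ) = 0 := by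
      intro i
      have h6 := F.sum_ax (by omega) y
      rw [Finset.sum_congr rfl (fun j _ => hall j i), Finset.sum_const, Finset.card_univ, Fintype.card_fin,
        nsmul_eq_mul] at h6
      rcases mul_eq_zero.1 h6 with h7 | h7
      · exact absurd h7 hm0.ne'
      · exact h7
    rw [F.expand hy]
    exact Finset.sum_eq_zero fun i _ => by rw [h5 i, zero_smul]
  -- every value is one of the two
  have hval : ∀ k, (inner ℝ y (u k) : ℝ) = inner ℝ y (u p) ∨ (inner ℝ y (u k) : ℝ) = inner ℝ y (u q) := by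
    intro k
    by_cases hkp : k = p
    · left; rw [hkp]
    · by_cases hkq : k = q
      · right; rw [hkq]
      · rcases htwo k q hkq with h | h | h
        · rcases htwo p k (Ne.symm hkp) with h' | h' | h' <;> linarith
        · right; linarith
        · left; linarith
  -- one of the two sets has one element
  have hone : (∀ k, k ≠ p → (inner ℝ y (u k) : ℝ) = inner ℝ y (u q)) ∨
      (∀ k, k ≠ q → (inner ℝ y (u k) : ℝ) = inner ℝ y (u p)) := by
    by_contra hcon
    push Not at hcon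
    obtain ⟨⟨p', hp', hp2⟩, ⟨q', hq', hq2⟩⟩ := hcon
    have hp3 := (hval p').resolve_right hp2
    have hq3 := (hval q').resolve_left hq2
    have hne : ∀ {i j : Fin m}, (inner ℝ y (u i) : ℝ) = inner ℝ y (u p) → (inner ℝ y (u j) : ℝ) = inner ℝ y (u q) →
        i ≠ j := by
      intro i j h1 h2 hij
      rw [hij] at h1
      rw [h1] at h2
      linarith
    have h5 := hfour p p' q q' (Ne.symm hp') (hne rfl rfl) (hne rfl hq3) (hne hp3 rfl) (hne hp3 hq3) (Ne.symm hq')
    rw [hp3, hq3] at h5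
    linarith
  have hsum := F.sum_ax (by omega) y
  rcases hone with h5 | h5
  · refine ⟨p, 1, Or.inl rfl, ?_⟩
    have h6 : ∀ k, (inner ℝ y (u k) : ℝ) = inner ℝ y (u q) + if k = p then 1 else 0 := by
      intro k
      split_ifs with h
      · rw [h]; linarith
      · rw [h5 k h, add_zero]
    rw [Finset.sum_congr rfl (fun k _ => h6 k), Finset.sum_add_distrib, Finset.sum_const, Finset.card_univ,
      Fintype.card_fin, nsmul_eq_mul, Finset.sum_ite_eq' Finset.univ p, if_pos (Finset.mem_univ p)] at hsum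
    intro k
    rw [h6 k]
    field_simp
    linarith
  · refine ⟨q, -1, Or.inr rfl, ?_⟩
    have h6 : ∀ k, (inner ℝ y (u k) : ℝ) = inner ℝ y (u p) - if k = q then 1 else 0 := by
      intro k
      split_ifs with h
      · rw [h]; linarith
      · rw [h5 k h, sub_zero]
    rw [Finset.sum_congr rfl (fun k _ => h6 k), Finset.sum_sub_distrib, Finset.sum_const, Finset.card_univ,
      Fintype.card_fin, nsmul_eq_mul, Finset.sum_ite_eq' Finset.univ q, if_pos (Finset.mem_univ q)] at hsum
    intro k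
    rw [h6 k]
    field_simp
    linarith

/-- an upper bound for the Casimir constant -/
theorem FrA.cas_le (F : FrA Φ m u) {l : E} (hlsp : l ∈ Submodule.span ℝ (Φ : Set E))
    {z : Fin m → ℤ} (hz : ∀ i, (inner ℝ l (u i) : ℝ) = z i) (h1 : ∀ i, |z i| ≤ 1) :
    cas Φ l ≤ m * (∑ i, |z i| : ℤ) := by
  classical
  have hll : (inner ℝ l l : ℝ) = (∑ i, |z i| : ℤ) := by
    rw [F.inner_eq hlsp]
    push_cast
    refine Finset.sum_congr rfl fun i _ => ?_
    rw [hz i]
    have := h1 i
    rw [abs_le] at this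
    have h2 : z i = 0 ∨ z i = 1 ∨ z i = -1 := by omega
    rcases h2 with h | h | h <;> rw [h] <;> norm_num
  have hsum : ∑ a ∈ Φ, |(inner ℝ l a : ℝ)| ≤ 2 * (m - 1) * (∑ i, |z i| : ℤ) := by
    have e1 : Φ = (Finset.univ : Finset (Fin m)).offDiag.image fun p => u p.1 - u p.2 := by
      ext a
      rw [F.mem]
      simp only [Finset.mem_image, Finset.mem_offDiag, Finset.mem_univ, true_and]
      constructor
      · rintro ⟨i, j, hij, rfl⟩
        exact ⟨(i, j), hij, rfl⟩
      · rintro ⟨p, hp, rfl⟩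
        exact ⟨p.1, p.2, hp, rfl⟩
    have e2 : ∑ a ∈ Φ, |(inner ℝ l a : ℝ)| ≤
        ∑ p ∈ (Finset.univ : Finset (Fin m)).offDiag, |(inner ℝ l (u p.1 - u p.2) : ℝ)| := by
      rw [e1]
      exact Finset.sum_image_le_of_nonneg (fun _ _ => abs_nonneg _)
    refine e2.trans ?_
    have e3 : ∀ p : Fin m × Fin m, |(inner ℝ l (u p.1 - u p.2) : ℝ)| ≤ |(z p.1 : ℝ)| + |(z p.2 : ℝ)| := by
      intro p
      rw [F.inner_sub', hz, hz]
      exact abs_sub _ _
    refine (Finset.sum_le_sum fun p _ => e3 p).trans ?_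
    rw [sum_off (fun i j => |(z i : ℝ)| + |(z j : ℝ)|)]
    simp only [Finset.sum_add_distrib, Finset.sum_const, Finset.card_univ, Fintype.card_fin, nsmul_eq_mul,
      ← Finset.mul_sum]
    push_cast
    apply le_of_eq
    ring
  unfold cas
  rw [hll]
  nlinarith

/-- **BLOCK 2 (type A, three levels).** -/
theorem In.a3 (h : In Φ X n (8 * s) l y) (h3 : Lev3 X y) (F : FrA Φ m u) (hm : 9 ≤ m) (hs : 2 * s ≤ n) :
    s ^ 3 ≤ 1000 * n ^ 2 * Lg n ^ 3 * Nat.gcd n (8 * s) ∨ (l ∈ Φ ∧ ∀ a ∈ Φ, (inner ℝ a a : ℝ) ≤ inner ℝ l l) := by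
  classical
  have hlsp := Sat.span27 h.sat h.l_mem
  have hm0 : (0 : ℝ) < m := by exact_mod_cast (by omega : 0 < m)
  have hgen := h.generalA F hm
  obtain ⟨g, hg⟩ : ∃ g, g = Nat.gcd n (8 * s) := ⟨_, rfl⟩
  obtain ⟨L, hL⟩ : ∃ L, L = Lg n := ⟨_, rfl⟩
  rw [← hg] at hgen ⊢
  rw [← hL]
  have hgen2 : n ≤ 2 * g * m ^ 3 := by
    calc n ≤ g * (2 * m * (m ^ 2 - 1)) := hgen
      _ ≤ g * (2 * m * m ^ 2) := Nat.mul_le_mul_left _ (Nat.mul_le_mul_left _ (Nat.sub_le _ _))
      _ = 2 * g * m ^ 3 := by ring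
  have hn := h.n_pos
  have hsn : s ≤ n := by omega
  rcases F.int_or h.sat (by omega) h.l_mem with ⟨z, hz⟩ | hz
  · by_cases hz2 : ∑ i, |z i| ≤ 2
    · right
      have hroot := F.root_of_small hm hlsp h.l_ne hz hz2
      refine ⟨hroot, fun a ha => ?_⟩
      obtain ⟨i, j, hij, rfl⟩ := (F.mem a).1 ha
      obtain ⟨i', j', hij', h1⟩ := (F.mem l).1 hroot
      rw [h1, F.norm hij, F.norm hij']
    left
    rcases Nat.eq_zero_or_pos s with hs0 | hs0
    · rw [hs0]; simp
    have hy0 : y ≠ 0 := by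
      intro h0
      have h1 := h.idt
      rw [h0, inner_zero_right, mul_zero, F.finrank (by omega), F.card] at h1
      have h2 : (0 : ℝ) < ((8 * s : ℕ) : ℝ) := by exact_mod_cast (by omega : 0 < 8 * s)
      have h4 : (0 : ℝ) < ((m - 1 : ℕ) : ℝ) + m * (m - 1) := by
        have h5 : (9 : ℝ) ≤ m := by exact_mod_cast hm
        have h6 : (0 : ℝ) ≤ ((m - 1 : ℕ) : ℝ) := Nat.cast_nonneg _
        nlinarith
      have := mul_pos h2 h4
      linarith
    -- the shape of `y`
    obtain ⟨w, ⟨x', hx', hw⟩, hw1, hw2⟩ := core_a (by omega)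
      (fun z => ∃ x ∈ X, ∀ i, (inner ℝ x (u i) : ℝ) = z i) (by
        rintro z ⟨x, hx, hz⟩
        have h1 := F.sum_ax (by omega) x
        simp only [hz] at h1
        exact_mod_cast h1) (by
        rintro z ⟨x, hx, hz⟩ i j hij h1
        have h2 := F.step h.sat hx hij (by
          rw [hz i, hz j]
          exact_mod_cast h1)
        refine ⟨_, h2, fun k => ?_⟩
        rw [F.ax_step, hz k]
        unfold md
        by_cases hki : k = i
        · subst hki; simp [hij.symm]
        · by_cases hkj : k = j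
          · subst hkj; simp [hki, hij]
          · simp [hki, hkj, Ne.symm hki, Ne.symm hkj]) z ⟨l, h.l_mem, hz⟩ (by omega)
    obtain ⟨p, ε, hε, hy⟩ := F.y_shape h.sat hm h3 h.y_mem hy0 hx' hw hw1 hw2
    -- the level of an element of `X`
    have hlev : ∀ x ∈ X, (inner ℝ x y : ℝ) = ε * inner ℝ x (u p) := by
      intro x hx
      rw [F.inner_eq (Sat.span27 h.sat hx) y]
      have h1 := F.sum_ax (by omega) x
      have h2 : ∀ i, (inner ℝ x (u i) : ℝ) * inner ℝ y (u i) =
          ε * (if i = p then inner ℝ x (u i) else 0) - ε * (1 / (m : ℝ)) * inner ℝ x (u i) := by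
        intro i
        rw [hy i]
        split_ifs <;> ring
      rw [Finset.sum_congr rfl fun i _ => h2 i, Finset.sum_sub_distrib, ← Finset.mul_sum, ← Finset.mul_sum, h1,
        Finset.sum_ite_eq' Finset.univ p, if_pos (Finset.mem_univ p)]
      ring
    have hz1 : ∀ i, |z i| ≤ 1 := by
      intro i
      obtain ⟨x, hx, hxk⟩ := F.swap h.sat h.l_mem i p
      have h1 := hlev x hx
      rw [hxk p, Equiv.swap_apply_right, hz i] at h1
      have h2 := h3 x hx
      rw [h1] at h2
      have h4 : (z i : ℝ) = -1 ∨ (z i : ℝ) = 0 ∨ (z i : ℝ) = 1 := by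
        rcases hε with h | h <;> rw [h] at h2 <;> rcases h2 with h2 | h2 | h2
        · left; linarith
        · right; left; linarith
        · right; right; linarith
        · right; right; linarith
        · right; left; linarith
        · left; linarith
      rcases h4 with h4 | h4 | h4
      · have : z i = -1 := by exact_mod_cast h4
        rw [this]; norm_num
      · have : z i = 0 := by exact_mod_cast h4
        rw [this]; norm_num
      · have : z i = 1 := by exact_mod_cast h4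
        rw [this]; norm_num
    -- the number of the coordinates which are one
    have hz0 : ∑ i, z i = 0 := by
      have h1 := F.sum_ax (by omega) l
      simp only [hz] at h1
      exact_mod_cast h1
    obtain ⟨k, hk⟩ : ∃ k, (Finset.univ.filter fun i => (inner ℝ l (u i) : ℝ) = 1).card = k := ⟨_, rfl⟩
    have hc : ∀ i, z i = 0 ∨ z i = 1 ∨ z i = -1 := by
      intro i
      have := hz1 i
      rw [abs_le] at this
      omega
    have hkz : (k : ℤ) = ∑ i, if z i = 1 then 1 else 0 := by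
      rw [← hk, Finset.card_filter]
      push_cast
      refine Finset.sum_congr rfl fun i _ => ?_
      have h1 : ((inner ℝ l (u i) : ℝ) = 1) ↔ z i = 1 := by
        rw [hz i]; exact_mod_cast Iff.rfl
      by_cases h2 : z i = 1
      · rw [if_pos (h1.2 h2), if_pos h2]
      · rw [if_neg (fun h => h2 (h1.1 h)), if_neg h2]
    have hS : ∑ i, |z i| = 2 * k := by
      rw [hkz, Finset.mul_sum]
      have h1 : ∑ i, |z i| = ∑ i, (|z i| + z i) := by rw [Finset.sum_add_distrib, hz0, add_zero]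
      rw [h1]
      refine Finset.sum_congr rfl fun i _ => ?_
      rcases hc i with h | h | h <;> rw [h] <;> norm_num
    have hkm : 2 * k ≤ m := by
      have h1 : ∑ i, |z i| ≤ ∑ _i : Fin m, (1 : ℤ) := Finset.sum_le_sum fun i _ => hz1 i
      rw [hS] at h1
      simp only [Finset.sum_const, Finset.card_univ, Fintype.card_fin, nsmul_eq_mul, mul_one] at h1
      exact_mod_cast h1
    have hkL : k < L := by
      rw [hL]
      exact lt_Lg ((two_pow_le_choose hkm).trans ((F.choose_ones h.sat h.l_mem hk).trans h.card_le))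
    -- the identity
    have hyy : (inner ℝ y y : ℝ) = 1 - 1 / (m : ℝ) := by
      rw [F.inner_eq h.y_mem y]
      have hε2 : ε * ε = 1 := by rcases hε with h | h <;> rw [h] <;> norm_num
      have h2 : ∀ i, (inner ℝ y (u i) : ℝ) * inner ℝ y (u i) =
          (if i = p then (1 - 2 / (m : ℝ)) else 0) + 1 / (m : ℝ) ^ 2 := by
        intro i
        rw [hy i]
        split_ifs
        · field_simp
          linear_combination ((m : ℝ) - 1) ^ 2 * hε2
        · field_simp
          linear_combination hε2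
      rw [Finset.sum_congr rfl fun i _ => h2 i, Finset.sum_add_distrib, Finset.sum_ite_eq' Finset.univ p,
        if_pos (Finset.mem_univ p), Finset.sum_const, Finset.card_univ, Fintype.card_fin, nsmul_eq_mul]
      field_simp
      ring
    have hcas := F.cas_le hlsp hz hz1
    rw [hS] at hcas
    push_cast at hcas
    have hid := h.idt
    have hm1 : ((m - 1 : ℕ) : ℝ) = m - 1 := by
      rw [Nat.cast_sub (by omega)]; norm_num
    rw [F.finrank (by omega), F.card, hyy, hm1] at hid
    push_cast at hid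
    have hm9 : (9 : ℝ) ≤ m := by exact_mod_cast hm
    have hid2 : (n : ℝ) * cas Φ l = 2 * s * m * (m + 1) := by
      have h5 : (m : ℝ) - 1 ≠ 0 := by linarith
      have h7 : (1 : ℝ) - 1 / m = (m - 1) / m := by field_simp
      rw [h7] at hid
      have h8 : ((m : ℝ) - 1) * (4 * n * cas Φ l) = (m - 1) * (8 * s * (m * (m + 1))) := by
        have h9 : (m : ℝ) * (4 * n * cas Φ l * ((m - 1) / m)) = (m - 1) * (4 * n * cas Φ l) := by
          rw [div_eq_mul_inv]
          have h10 : (m : ℝ) * (m : ℝ)⁻¹ = 1 := mul_inv_cancel₀ hm0.ne'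
          linear_combination (4 * (n : ℝ) * cas Φ l * (m - 1)) * h10
        rw [← h9, hid]
        ring
      have h11 := mul_left_cancel₀ h5 h8
      linarith
    have hsm : s * m ≤ n * k := by
      have h5 : (2 : ℝ) * s * m * (m + 1) ≤ n * (m * (2 * k)) := by
        rw [← hid2]
        exact mul_le_mul_of_nonneg_left hcas (Nat.cast_nonneg _)
      have h6 : (s : ℝ) * m * (2 * m) ≤ n * k * (2 * m) := by
        have h7 : (0 : ℝ) ≤ s * m := by positivity
        nlinarith
      have h8 : (s : ℝ) * m ≤ n * k := le_of_mul_le_mul_right h6 (by positivity)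
      exact_mod_cast h8
    have hsm2 : s * m ≤ n * L := hsm.trans (Nat.mul_le_mul_left _ hkL.le)
    have hfin : n * s ^ 3 ≤ n * (2 * g * n ^ 2 * L ^ 3) := by
      calc n * s ^ 3 ≤ (2 * g * m ^ 3) * s ^ 3 := Nat.mul_le_mul_right _ hgen2
        _ = 2 * g * (s * m) ^ 3 := by ring
        _ ≤ 2 * g * (n * L) ^ 3 := Nat.mul_le_mul_left _ (Nat.pow_le_pow_left hsm2 3)
        _ = n * (2 * g * n ^ 2 * L ^ 3) := by ring
    have hfin2 := Nat.le_of_mul_le_mul_left hfin hn
    calc s ^ 3 ≤ 2 * g * n ^ 2 * L ^ 3 := hfin2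
      _ = 2 * (n ^ 2 * L ^ 3 * g) := by ring
      _ ≤ 1000 * (n ^ 2 * L ^ 3 * g) := Nat.mul_le_mul_right _ (by norm_num)
      _ = 1000 * n ^ 2 * L ^ 3 * g := by ring
  · left
    have h1 := (two_pow_le_choose (k := m / 2) (m := m) (by omega)).trans
      ((F.choose_of_half h.sat (by omega) h.l_mem hz).trans h.card_le)
    have h2 := lt_Lg h1
    rw [← hL] at h2
    have h4 : m ≤ 2 * L := by omega
    have h5 : n ≤ 16 * g * L ^ 3 := by
      calc n ≤ 2 * g * m ^ 3 := hgen2
        _ ≤ 2 * g * (2 * L) ^ 3 := Nat.mul_le_mul_left _ (Nat.pow_le_pow_left h4 3)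
        _ = 16 * g * L ^ 3 := by ring
    calc s ^ 3 = s ^ 2 * s := by ring
      _ ≤ n ^ 2 * n := Nat.mul_le_mul (Nat.pow_le_pow_left hsn 2) hsn
      _ ≤ n ^ 2 * (16 * g * L ^ 3) := Nat.mul_le_mul_left _ h5
      _ = 16 * (n ^ 2 * L ^ 3 * g) := by ring
      _ ≤ 1000 * (n ^ 2 * L ^ 3 * g) := Nat.mul_le_mul_right _ (by norm_num)
      _ = 1000 * n ^ 2 * L ^ 3 * g := by ring

end TF
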